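import Pool.Agent.Lib.MP_c3d375_an.Neg.Iface

/-!
# MP_c3d375 (S06050): module CE (Paper 4.4)

`CD` bundles the data of the contact analysis, `fl M` is the filter of the near contacts with
constant `M`, and every relation of the paper is a limit along `fl M`.
-/

set_option linter.unusedSectionVars false

open Complex Metric Set Filter Topology ComplexConjugate

namespace C3N.H38

/-- all data of the contact analysis -/
structure CD : Type 1 where
  /-- the Hilbert space -/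
  H : Type
  /-- norm -/
  [i1 : NormedAddCommGroup H]
  /-- inner product -/
  [i2 : InnerProductSpace ℂ H]
  /-- complete -/
  [i3 : CompleteSpace H]
  /-- the algebra -/
  A : Type
  /-- ring -/
  [i4 : CommRing A]
  /-- algebra -/
  [i5 : Algebra ℂ A]
  /-- the calculus -/
  Φ : A →ₐ[ℂ] (H →L[ℂ] H)
  /-- symbols -/
  q : A
  /-- symbols -/
  qi : A
  /-- symbols -/
  j : A
  /-- symbols -/
  B : A
  /-- symbols -/
  L : A
  /-- symbols -/
  Δ : A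
  /-- scalars -/
  a : ℝ
  /-- scalars -/
  ν : ℂ
  /-- scalars -/
  b : ℂ
  /-- the vector -/
  v : H

attribute [instance] CD.i1 CD.i2 CD.i3 CD.i4 CD.i5

/-- the hypotheses -/
def CD.P (M δ : ℝ) (D : CD) : Prop :=
  Near D.Φ D.q D.j D.Δ M δ D.v ∧ KerA D.Φ D.q D.qi D.j D.B D.L D.a D.ν D.b M δ ∧
    ∀ N : ℕ, ‖D.Φ (D.q * D.j * (1 - D.q * D.j) ^ N)‖ ≤ M / (N + 1)

section mono

variable {H : Type} [NormedAddCommGroup H] [InnerProductSpace ℂ H] [CompleteSpace H]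
  {𝓐 : Type} [CommRing 𝓐] [Algebra ℂ 𝓐]

lemma near_mono {Φ : 𝓐 →ₐ[ℂ] (H →L[ℂ] H)} {q j Δ : 𝓐} {M δ δ' : ℝ} {v : H} (h : δ ≤ δ')
    (hN : Near Φ q j Δ M δ v) : Near Φ q j Δ M δ' v := by
  refine { hN with
    nΔ := hN.nΔ.trans h
    pj := fun x => ?_
    pJ := fun x => ?_
    form := hN.form.trans h
    xi := hN.xi.trans h
    k1 := hN.k1.trans h
    k2 := hN.k2.trans h }
  · have := hN.pj x
    have : δ * ‖Φ j x‖ ^ 2 ≤ δ' * ‖Φ j x‖ ^ 2 := by gcongr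
    linarith
  · have := hN.pJ x
    have : δ * ‖Φ (q ^ 2 * j) x‖ ^ 2 ≤ δ' * ‖Φ (q ^ 2 * j) x‖ ^ 2 := by gcongr
    linarith

lemma kerA_mono {Φ : 𝓐 →ₐ[ℂ] (H →L[ℂ] H)} {q qi j B L : 𝓐} {a : ℝ} {ν b : ℂ} {M δ δ' : ℝ}
    (hM : 0 ≤ M) (h : δ ≤ δ')
    (hK : KerA Φ q qi j B L a ν b M δ) : KerA Φ q qi j B L a ν b M δ' := by
  refine { hK with
    posx := fun n => ?_
    posu := fun n => ?_
    kx := fun n n' => ?_
    ku := fun n n' => ?_ }
  · have := hK.posx n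
    have : δ * ‖n‖ ^ 2 ≤ δ' * ‖n‖ ^ 2 := by gcongr
    linarith
  · have := hK.posu n
    have : δ * ‖n‖ ^ 2 ≤ δ' * ‖n‖ ^ 2 := by gcongr
    linarith
  · refine (hK.kx n n').trans ?_
    gcongr
  · refine (hK.ku n n').trans ?_
    gcongr

end mono

lemma CD.P.mono {M δ δ' : ℝ} {D : CD} (hM : 0 ≤ M) (h : δ ≤ δ') (hP : D.P M δ) : D.P M δ' :=
  ⟨near_mono h hP.1, kerA_mono hM h hP.2.1, hP.2.2⟩

/-- the filter of near contacts -/
def fl (M : ℝ) (hM : 0 ≤ M) : Filter CD where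
  sets := {S | ∃ δ > 0, ∀ D : CD, D.P M δ → D ∈ S}
  univ_sets := ⟨1, one_pos, fun _ _ => trivial⟩
  sets_of_superset := by
    rintro S S' ⟨δ, h1, h2⟩ h
    exact ⟨δ, h1, fun D hD => h (h2 D hD)⟩
  inter_sets := by
    rintro S S' ⟨δ, h1, h2⟩ ⟨δ', h1', h2'⟩
    exact ⟨min δ δ', lt_min h1 h1', fun D hD =>
      ⟨h2 D (hD.mono hM (min_le_left _ _)), h2' D (hD.mono hM (min_le_right _ _))⟩⟩

lemma ev_iff {M : ℝ} {hM : 0 ≤ M} {p : CD → Prop} :
    (∀ᶠ D in fl M hM, p D) ↔ ∃ δ > 0, ∀ D : CD, D.P M δ → p D := Iff.rfl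

lemma ev_P {M : ℝ} (hM : 0 ≤ M) {δ : ℝ} (hδ : 0 < δ) : ∀ᶠ D in fl M hM, D.P M δ :=
  ⟨δ, hδ, fun _ h => h⟩

/-- limits along the filter -/
def T {M : ℝ} (hM : 0 ≤ M) (f : CD → ℂ) : Prop := Tendsto f (fl M hM) (𝓝 0)

section lim

variable {M : ℝ} {hM : 0 ≤ M}

lemma tz {E : Type*} [NormedAddCommGroup E] {f : CD → E} (h : ∀ ε > 0, ∃ δ > 0, ∀ D : CD, D.P M δ → ‖f D‖ ≤ ε) :
    Tendsto f (fl M hM) (𝓝 0) := by
  rw [Metric.tendsto_nhds]
  intro ε hε
  obtain ⟨δ, h1, h2⟩ := h (ε / 2) (by linarith)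
  refine ⟨δ, h1, fun D hD => ?_⟩
  have := h2 D hD
  show dist (f D) 0 < ε
  rw [dist_zero_right]
  linarith

lemma T.out {f : CD → ℂ} (h : T hM f) {ε : ℝ} (hε : 0 < ε) :
    ∃ δ > 0, ∀ D : CD, D.P M δ → ‖f D‖ ≤ ε := by
  have := (Metric.tendsto_nhds.1 h) ε hε
  obtain ⟨δ, h1, h2⟩ := this
  refine ⟨δ, h1, fun D hD => ?_⟩
  have h3 : dist (f D) 0 < ε := h2 D hD
  rw [dist_zero_right] at h3
  exact h3.le

lemma T.add {f g : CD → ℂ} (hf : T hM f) (hg : T hM g) : T hM (fun D => f D + g D) := by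
  have := Tendsto.add hf hg
  rw [add_zero] at this
  exact this

lemma T.neg {f : CD → ℂ} (hf : T hM f) : T hM (fun D => -f D) := by
  have := Tendsto.neg hf
  rw [neg_zero] at this
  exact this

lemma T.sub {f g : CD → ℂ} (hf : T hM f) (hg : T hM g) : T hM (fun D => f D - g D) := by
  have := Tendsto.sub hf hg
  rw [sub_zero] at this
  exact this

lemma T.conj {f : CD → ℂ} (hf : T hM f) : T hM (fun D => conj (f D)) := by
  have := (Complex.continuous_conj.tendsto 0).comp hf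
  rw [map_zero] at this
  exact this

lemma T.bmul {f : CD → ℂ} (hf : T hM f) {c : CD → ℂ}
    (hc : ∃ C : ℝ, ∀ᶠ D in fl M hM, ‖c D‖ ≤ C) : T hM (fun D => c D * f D) := by
  obtain ⟨C, hC⟩ := hc
  unfold T
  rw [tendsto_zero_iff_norm_tendsto_zero]
  have h : Tendsto (fun D => C * ‖f D‖) (fl M hM) (𝓝 0) := by
    have := Tendsto.const_mul C (tendsto_zero_iff_norm_tendsto_zero.1 hf)
    rwa [mul_zero] at this
  refine squeeze_zero' (Eventually.of_forall fun D => norm_nonneg _) ?_ h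
  filter_upwards [hC] with D hD
  rw [norm_mul]
  gcongr

lemma T.cmul {f : CD → ℂ} (hf : T hM f) (c : ℂ) : T hM (fun D => c * f D) :=
  hf.bmul ⟨‖c‖, Eventually.of_forall fun _ => le_rfl⟩

lemma T.congr {f g : CD → ℂ} (hf : T hM f) (h : ∀ᶠ D in fl M hM, f D = g D) : T hM g :=
  Tendsto.congr' h hf

end lim

/-- `u = q v` -/
def CD.u (D : CD) : D.H := D.Φ D.q D.v

/-- `y = q* v` -/
noncomputable def CD.y (D : CD) : D.H := (D.Φ D.q).adjoint D.v

/-- `K = q j` -/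
def CD.K (D : CD) : D.A := D.q * D.j

/-- `J = q² j` -/
def CD.J (D : CD) : D.A := D.q ^ 2 * D.j

/-- `k` -/
noncomputable def CD.k (D : CD) : D.A := D.B * (1 + D.ν⁻¹ • D.q ^ 2) * D.j

/-- `l` -/
def CD.l (D : CD) : D.A := D.j * D.L

/-- `a_Z` -/
noncomputable def aa (Z : ∀ D : CD, D.A) (D : CD) : ℂ := inner ℂ D.v (D.Φ (Z D) D.v)

/-- `b_Z` -/
noncomputable def bb (Z : ∀ D : CD, D.A) (D : CD) : ℂ := inner ℂ D.u (D.Φ (Z D) D.u)

/-- `c_Z` -/
noncomputable def cc (Z : ∀ D : CD, D.A) (D : CD) : ℂ := inner ℂ D.u (D.Φ (Z D) D.v)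

/-- `d_Z` -/
noncomputable def dd (Z : ∀ D : CD, D.A) (D : CD) : ℂ := inner ℂ D.v (D.Φ (Z D) D.u)

/-- bounded families of symbols -/
def BA {M : ℝ} (hM : 0 ≤ M) (Z : ∀ D : CD, D.A) : Prop :=
  ∃ C : ℝ, ∀ᶠ D in fl M hM, ‖D.Φ (Z D)‖ ≤ C

/-- bounded families of vectors -/
def BV {M : ℝ} (hM : 0 ≤ M) (x : ∀ D : CD, D.H) : Prop :=
  ∃ C : ℝ, ∀ᶠ D in fl M hM, ‖x D‖ ≤ C

section bd

variable {M : ℝ} {hM : 0 ≤ M}

lemma BA.mul {Z Z' : ∀ D : CD, D.A} (h : BA hM Z) (h' : BA hM Z') : BA hM (fun D => Z D * Z' D) := by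
  obtain ⟨C, hC⟩ := h
  obtain ⟨C', hC'⟩ := h'
  refine ⟨|C| * |C'|, ?_⟩
  filter_upwards [hC, hC'] with D h1 h2
  rw [map_mul]
  exact (norm_mul_le _ _).trans (mul_le_mul (h1.trans (le_abs_self _)) (h2.trans (le_abs_self _))
    (norm_nonneg _) (abs_nonneg _))

lemma BA.one : BA hM (fun D => (1 : D.A)) := by
  refine ⟨1, Eventually.of_forall fun D => ?_⟩
  rw [map_one]
  exact ContinuousLinearMap.norm_id_le

lemma BA.pow {Z : ∀ D : CD, D.A} (h : BA hM Z) (n : ℕ) : BA hM (fun D => Z D ^ n) := by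
  induction n with
  | zero => simpa only [pow_zero] using BA.one
  | succ n ih => simpa only [pow_succ] using ih.mul h

lemma BA.bv {Z : ∀ D : CD, D.A} {x : ∀ D : CD, D.H} (h : BA hM Z) (hx : BV hM x) :
    BV hM (fun D => D.Φ (Z D) (x D)) := by
  obtain ⟨C, hC⟩ := h
  obtain ⟨C', hC'⟩ := hx
  refine ⟨|C| * |C'|, ?_⟩
  filter_upwards [hC, hC'] with D h1 h2
  exact ((D.Φ (Z D)).le_opNorm _).trans (mul_le_mul (h1.trans (le_abs_self _))
    (h2.trans (le_abs_self _)) (norm_nonneg _) (abs_nonneg _))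

lemma bd_v : BV hM (fun D => D.v) :=
  ⟨M, (ev_P hM one_pos).mono fun D hD => hD.1.nv⟩

lemma bd_u : BV hM (fun D => D.u) :=
  ⟨M, (ev_P hM one_pos).mono fun D hD => hD.1.nu⟩

lemma bd_j : BA hM (fun D => D.j) :=
  ⟨M, (ev_P hM one_pos).mono fun D hD => hD.1.nj⟩

lemma bd_K : BA hM (fun D => D.K) :=
  ⟨M, (ev_P hM one_pos).mono fun D hD => hD.1.nK⟩

lemma bd_J : BA hM (fun D => D.J) :=
  ⟨M, (ev_P hM one_pos).mono fun D hD => hD.1.nJ⟩

lemma bd_k : BA hM (fun D => D.k) :=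
  ⟨M, (ev_P hM one_pos).mono fun D hD => hD.2.1.nk⟩

lemma bd_l : BA hM (fun D => D.l) :=
  ⟨M, (ev_P hM one_pos).mono fun D hD => hD.2.1.nl⟩

lemma bd_ν' : ∃ C : ℝ, ∀ᶠ D in fl M hM, ‖D.ν⁻¹‖ ≤ C :=
  ⟨M, (ev_P hM one_pos).mono fun D hD => hD.2.1.hν'⟩

lemma bd_aν : ∃ C : ℝ, ∀ᶠ D in fl M hM, ‖(D.a : ℂ) / D.ν‖ ≤ C := by
  refine ⟨1 * M, (ev_P hM one_pos).mono fun D hD => ?_⟩
  rw [div_eq_mul_inv, norm_mul]
  have h1 : ‖(D.a : ℂ)‖ ≤ 1 := by
    rw [Complex.norm_real]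
    exact hD.2.1.ha
  exact mul_le_mul h1 hD.2.1.hν' (norm_nonneg _) zero_le_one

lemma ip_small {x y : ∀ D : CD, D.H} (hx : Tendsto (fun D => ‖x D‖) (fl M hM) (𝓝 0))
    (hy : BV hM y) : T hM (fun D => inner ℂ (x D) (y D)) := by
  obtain ⟨C, hC⟩ := hy
  unfold T
  rw [tendsto_zero_iff_norm_tendsto_zero]
  have h : Tendsto (fun D => ‖x D‖ * C) (fl M hM) (𝓝 0) := by
    have := Filter.Tendsto.mul_const C hx
    rwa [zero_mul] at this
  refine squeeze_zero' (Eventually.of_forall fun D => norm_nonneg _) ?_ h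
  filter_upwards [hC] with D h1
  exact (norm_inner_le_norm _ _).trans (mul_le_mul_of_nonneg_left h1 (norm_nonneg _))

lemma phi_mul (D : CD) (x y : D.A) (w : D.H) : D.Φ (x * y) w = D.Φ x (D.Φ y w) := by
  rw [map_mul]; rfl

/-- rule 1: `d_Z ~ - c_Z` -/
lemma r1 {Z : ∀ D : CD, D.A} (hZ : BA hM Z) : T hM (fun D => dd Z D + cc Z D) := by
  have h0 : Tendsto (fun D : CD => ‖D.u + D.y‖) (fl M hM) (𝓝 0) := by
    apply tz
    intro ε hε
    refine ⟨ε, hε, fun D hD => ?_⟩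
    rw [norm_norm]
    exact hD.1.xi
  refine (ip_small h0 (hZ.bv bd_v)).congr (Eventually.of_forall fun D => ?_)
  show inner ℂ (D.u + D.y) (D.Φ (Z D) D.v) =
    inner ℂ D.v (D.Φ (Z D) D.u) + inner ℂ D.u (D.Φ (Z D) D.v)
  rw [inner_add_left, add_comm]
  congr 1
  rw [CD.y, ContinuousLinearMap.adjoint_inner_left, CD.u, ← phi_mul, ← phi_mul, mul_comm]

/-- exact rule: `d_{jZ} = a_{KZ}` -/
lemma e_j (Z : ∀ D : CD, D.A) (D : CD) : dd (fun D => D.j * Z D) D = aa (fun D => D.K * Z D) D := by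
  show inner ℂ D.v (D.Φ (D.j * Z D) D.u) = inner ℂ D.v (D.Φ (D.K * Z D) D.v)
  rw [CD.u, CD.K, ← phi_mul]
  congr 3
  ring

/-- exact rule: `c_{JZ} = b_{KZ}` -/
lemma e_J (Z : ∀ D : CD, D.A) (D : CD) : cc (fun D => D.J * Z D) D = bb (fun D => D.K * Z D) D := by
  show inner ℂ D.u (D.Φ (D.J * Z D) D.v) = inner ℂ D.u (D.Φ (D.K * Z D) D.u)
  have : D.Φ (D.K * Z D) D.u = D.Φ (D.J * Z D) D.v := by
    rw [CD.u, CD.K, CD.J, ← phi_mul]
    congr 2
    ring
  rw [this]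

/-- rule 2: `c_{jZ} ~ - a_{KZ}` -/
lemma r2 {Z : ∀ D : CD, D.A} (hZ : BA hM Z) :
    T hM (fun D => cc (fun D => D.j * Z D) D + aa (fun D => D.K * Z D) D) := by
  refine (r1 (bd_j.mul hZ)).congr (Eventually.of_forall fun D => ?_)
  show dd (fun D => D.j * Z D) D + cc (fun D => D.j * Z D) D =
    cc (fun D => D.j * Z D) D + aa (fun D => D.K * Z D) D
  rw [e_j Z, add_comm]

/-- rule 4: `c_Z ~ b_{KZ} - a_{KZ}` -/
lemma r4 {Z : ∀ D : CD, D.A} (hZ : BA hM Z) :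
    T hM (fun D => cc Z D - (bb (fun D => D.K * Z D) D - aa (fun D => D.K * Z D) D)) := by
  refine (r2 hZ).congr ((ev_P hM one_pos).mono fun D hD => ?_)
  have h : D.Φ (Z D) D.v = D.Φ (D.j * Z D) D.v + D.Φ (D.J * Z D) D.v := by
    have : Z D = D.j * Z D + D.J * Z D := by
      have := hD.1.hj
      rw [CD.J]
      linear_combination (-(Z D)) * this
    conv_lhs => rw [this]
    rw [map_add]; rfl
  have h2 : cc Z D = cc (fun D => D.j * Z D) D + cc (fun D => D.J * Z D) D := by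
    show inner ℂ D.u (D.Φ (Z D) D.v) = inner ℂ D.u (D.Φ (D.j * Z D) D.v) +
      inner ℂ D.u (D.Φ (D.J * Z D) D.v)
    rw [h, inner_add_right]
  rw [h2, e_J Z]
  ring

end bd

section kk

variable {M : ℝ} {hM : 0 ≤ M}

lemma adj_pow {H : Type} [NormedAddCommGroup H] [InnerProductSpace ℂ H] [CompleteSpace H]
    (A : H →L[ℂ] H) (n : ℕ) (x y : H) :
    inner ℂ ((A.adjoint ^ n) x) y = inner ℂ x ((A ^ n) y) := by
  induction n generalizing y with
  | zero => simp only [pow_zero]; rfl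
  | succ n ih =>
    have e1 : (A.adjoint ^ (n + 1)) x = A.adjoint ((A.adjoint ^ n) x) := by rw [pow_succ']; rfl
    have e2 : (A ^ (n + 1)) y = (A ^ n) (A y) := by rw [pow_succ]; rfl
    rw [e1, e2, ContinuousLinearMap.adjoint_inner_left, ih]

lemma kkv (hKK : KKStatement) (h0 : 0 < M) (n : ℕ) :
    Tendsto (fun D : CD => ‖D.Φ (D.K ^ n) D.v - ((D.Φ D.K).adjoint ^ n) D.v‖) (fl M hM) (𝓝 0) := by
  apply tz
  intro ε hε
  obtain ⟨δ, h1, h2⟩ := hKK M ε n h0 hε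
  refine ⟨δ, h1, fun D hD => ?_⟩
  rw [norm_norm]
  exact (h2 D.H D.A D.Φ D.q D.j D.Δ D.v hD.1).1

lemma kku (hKK : KKStatement) (h0 : 0 < M) (n : ℕ) :
    Tendsto (fun D : CD => ‖D.Φ (D.K ^ n) D.u - ((D.Φ D.K).adjoint ^ n) D.u‖) (fl M hM) (𝓝 0) := by
  apply tz
  intro ε hε
  obtain ⟨δ, h1, h2⟩ := hKK M ε n h0 hε
  refine ⟨δ, h1, fun D hD => ?_⟩
  rw [norm_norm]
  exact (h2 D.H D.A D.Φ D.q D.j D.Δ D.v hD.1).2

/-- moving a power of `K` to the other side -/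
lemma s_v (hKK : KKStatement) (h0 : 0 < M) (n : ℕ) {x : ∀ D : CD, D.H} (hx : BV hM x) :
    T hM (fun D => inner ℂ (D.Φ (D.K ^ n) D.v) (x D) - inner ℂ D.v (D.Φ (D.K ^ n) (x D))) := by
  refine (ip_small (kkv hKK h0 n) hx).congr (Eventually.of_forall fun D => ?_)
  rw [inner_sub_left, adj_pow, map_pow]

lemma s_u (hKK : KKStatement) (h0 : 0 < M) (n : ℕ) {x : ∀ D : CD, D.H} (hx : BV hM x) :
    T hM (fun D => inner ℂ (D.Φ (D.K ^ n) D.u) (x D) - inner ℂ D.u (D.Φ (D.K ^ n) (x D))) := by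
  refine (ip_small (kku hKK h0 n) hx).congr (Eventually.of_forall fun D => ?_)
  rw [inner_sub_left, adj_pow, map_pow]

lemma s_v' (hKK : KKStatement) (h0 : 0 < M) (n : ℕ) {x : ∀ D : CD, D.H} (hx : BV hM x) :
    T hM (fun D => inner ℂ (x D) (D.Φ (D.K ^ n) D.v) -
      conj (inner ℂ D.v (D.Φ (D.K ^ n) (x D)))) := by
  refine (s_v hKK h0 n hx).conj.congr (Eventually.of_forall fun D => ?_)
  simp only [map_sub, inner_conj_symm]

lemma s_u' (hKK : KKStatement) (h0 : 0 < M) (n : ℕ) {x : ∀ D : CD, D.H} (hx : BV hM x) :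
    T hM (fun D => inner ℂ (x D) (D.Φ (D.K ^ n) D.u) -
      conj (inner ℂ D.u (D.Φ (D.K ^ n) (x D)))) := by
  refine (s_u hKK h0 n hx).conj.congr (Eventually.of_forall fun D => ?_)
  simp only [map_sub, inner_conj_symm]

/-- `c_{K^n} ~ 0` -/
lemma c_pow (hKK : KKStatement) (h0 : 0 < M) (n : ℕ) : T hM (cc (fun D => D.K ^ n)) := by
  have h1 : T hM (fun D => conj (cc (fun D => D.K ^ n) D) - dd (fun D => D.K ^ n) D) := by
    refine (s_v hKK h0 n bd_u).congr (Eventually.of_forall fun D => ?_)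
    simp only [cc, dd, inner_conj_symm]
  have h2 := r1 (hM := hM) (bd_K.pow n)
  have h3 : T hM (fun D => conj (aa (fun D => D.K ^ (n + 1)) D) - aa (fun D => D.K ^ (n + 1)) D) := by
    refine (s_v hKK h0 (n + 1) bd_v).congr (Eventually.of_forall fun D => ?_)
    simp only [aa, inner_conj_symm]
  have h4 : T hM (fun D => conj (bb (fun D => D.K ^ (n + 1)) D) - bb (fun D => D.K ^ (n + 1)) D) := by
    refine (s_u hKK h0 (n + 1) bd_u).congr (Eventually.of_forall fun D => ?_)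
    simp only [bb, inner_conj_symm]
  have h5 := r4 (hM := hM) (bd_K.pow n)
  have h6 := ((((h1.add h2).sub h5.conj).add h5).add (h3.sub h4)).cmul (1 / 2 : ℂ)
  refine h6.congr (Eventually.of_forall fun D => ?_)
  simp only [map_sub, ← pow_succ']
  ring

/-- `a_{K^{n+1}} ~ b_{K^{n+1}}` -/
lemma ab_pow (hKK : KKStatement) (h0 : 0 < M) (n : ℕ) :
    T hM (fun D => aa (fun D => D.K ^ (n + 1)) D - bb (fun D => D.K ^ (n + 1)) D) := by
  refine ((r4 (hM := hM) (bd_K.pow n)).sub (c_pow hKK h0 n)).congr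
    (Eventually.of_forall fun D => ?_)
  simp only [← pow_succ']
  ring

end kk

section rx

variable {M : ℝ} {hM : 0 ≤ M}

lemma rx_fam (hRX : RXStatement) (h0 : 0 < M) {g : ∀ D : CD, D.A} (hg : BA hM g) :
    T hM (fun D => inner ℂ (D.Φ D.K D.u) (D.Φ (g D * D.k) D.v) + inner ℂ D.v (D.Φ (g D * D.K) D.u) -
      (D.a / D.ν) * inner ℂ (D.Φ D.l D.v) (D.Φ (g D * D.K) D.u)) ∧
    T hM (fun D => inner ℂ (D.Φ D.K D.v) (D.Φ (g D * D.k) D.u) +
      D.ν⁻¹ * inner ℂ D.u (D.Φ (g D * D.K) D.v) +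
      (D.a / D.ν) * inner ℂ (D.Φ D.l D.u) (D.Φ (g D * D.K) D.v)) := by
  obtain ⟨C, hC⟩ := hg
  obtain ⟨δ1, h1, h2⟩ := ev_iff.1 hC
  constructor
  · apply tz
    intro ε hε
    obtain ⟨δ, h3, h4⟩ := hRX M (max C 1) ε h0 (by positivity) hε
    refine ⟨min δ δ1, lt_min h3 h1, fun D hD => ?_⟩
    have hD1 := hD.mono hM (min_le_left _ _)
    have hD2 := hD.mono hM (min_le_right _ _)
    exact (h4 D.H D.A D.Φ D.q D.qi D.j D.B D.L D.Δ D.a D.ν D.b D.v hD1.1 hD1.2.1 (g D)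
      ((h2 D hD2).trans (le_max_left _ _))).1
  · apply tz
    intro ε hε
    obtain ⟨δ, h3, h4⟩ := hRX M (max C 1) ε h0 (by positivity) hε
    refine ⟨min δ δ1, lt_min h3 h1, fun D hD => ?_⟩
    have hD1 := hD.mono hM (min_le_left _ _)
    have hD2 := hD.mono hM (min_le_right _ _)
    exact (h4 D.H D.A D.Φ D.q D.qi D.j D.B D.L D.Δ D.a D.ν D.b D.v hD1.1 hD1.2.1 (g D)
      ((h2 D hD2).trans (le_max_left _ _))).2

lemma x1 (hKK : KKStatement) (hRX : RXStatement) (h0 : 0 < M) {g : ∀ D : CD, D.A} (hg : BA hM g) :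
    T hM (fun D => cc (fun D => D.K * (g D * D.k)) D + dd (fun D => g D * D.K) D -
      (D.a / D.ν) * inner ℂ (D.Φ D.l D.v) (D.Φ (g D * D.K) D.u)) := by
  refine ((rx_fam hRX h0 hg).1.sub (s_u hKK h0 1 ((hg.mul bd_k).bv bd_v))).congr
    (Eventually.of_forall fun D => ?_)
  simp only [pow_one, cc, dd, phi_mul D D.K]
  ring

lemma x2 (hKK : KKStatement) (hRX : RXStatement) (h0 : 0 < M) {g : ∀ D : CD, D.A} (hg : BA hM g) :
    T hM (fun D => dd (fun D => D.K * (g D * D.k)) D + D.ν⁻¹ * cc (fun D => g D * D.K) D +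
      (D.a / D.ν) * inner ℂ (D.Φ D.l D.u) (D.Φ (g D * D.K) D.v)) := by
  refine ((rx_fam hRX h0 hg).2.sub (s_v hKK h0 1 ((hg.mul bd_k).bv bd_u))).congr
    (Eventually.of_forall fun D => ?_)
  simp only [pow_one, cc, dd, phi_mul D D.K]
  ring

/-- first pair of relations -/
lemma pair1 (hKK : KKStatement) (hRX : RXStatement) (h0 : 0 < M) (n : ℕ) :
    T hM (cc (fun D => D.K ^ (n + 1) * D.k)) ∧
    T hM (fun D => (D.a / D.ν) * conj (cc (fun D => D.K ^ (n + 1) * D.l) D)) := by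
  have hKn : BA hM (fun D => D.K ^ n) := bd_K.pow n
  have hKn1 : BA hM (fun D => D.K ^ (n + 1)) := bd_K.pow (n + 1)
  -- the inner products with `l`
  have l1 : T hM (fun D => inner ℂ (D.Φ D.l D.v) (D.Φ (D.K ^ n * D.K) D.u) -
      conj (cc (fun D => D.K ^ (n + 1) * D.l) D)) := by
    refine (s_u' hKK h0 (n + 1) (bd_l.bv bd_v)).congr (Eventually.of_forall fun D => ?_)
    simp only [cc, ← pow_succ, phi_mul D (D.K ^ (n + 1))]
  have l2 : T hM (fun D => inner ℂ (D.Φ D.l D.u) (D.Φ (D.K ^ n * D.K) D.v) -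
      conj (dd (fun D => D.K ^ (n + 1) * D.l) D)) := by
    refine (s_v' hKK h0 (n + 1) (bd_l.bv bd_u)).congr (Eventually.of_forall fun D => ?_)
    simp only [dd, ← pow_succ, phi_mul D (D.K ^ (n + 1))]
  have l3 : T hM (fun D => conj (dd (fun D => D.K ^ (n + 1) * D.l) D) +
      conj (cc (fun D => D.K ^ (n + 1) * D.l) D)) := by
    refine (r1 (hKn1.mul bd_l)).conj.congr (Eventually.of_forall fun D => ?_)
    simp only [map_add]
  -- the terms with `K^{n+1}`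
  have m1 : T hM (dd (fun D => D.K ^ n * D.K)) := by
    refine ((r1 hKn1).sub (c_pow hKK h0 (n + 1))).congr (Eventually.of_forall fun D => ?_)
    simp only [dd, pow_succ]
    ring
  have m2 : T hM (fun D => D.ν⁻¹ * cc (fun D => D.K ^ n * D.K) D) := by
    refine ((c_pow hKK h0 (n + 1)).bmul bd_ν').congr (Eventually.of_forall fun D => ?_)
    simp only [cc, pow_succ]
  have m3 : T hM (fun D => dd (fun D => D.K ^ (n + 1) * D.k) D + cc (fun D => D.K ^ (n + 1) * D.k) D) :=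
    r1 (hKn1.mul bd_k)
  have e1 : ∀ D : CD, D.K * (D.K ^ n * D.k) = D.K ^ (n + 1) * D.k := fun D => by ring
  have a1 := ((x1 hKK hRX h0 hKn).sub m1).add (l1.bmul bd_aν)
  have a2 := (((x2 hKK hRX h0 hKn).sub m2).sub (l2.bmul bd_aν)).sub (l3.bmul bd_aν)
  have A1 : T hM (fun D => cc (fun D => D.K ^ (n + 1) * D.k) D -
      (D.a / D.ν) * conj (cc (fun D => D.K ^ (n + 1) * D.l) D)) := by
    refine a1.congr (Eventually.of_forall fun D => ?_)
    simp only [e1]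
    ring
  have A2 : T hM (fun D => - cc (fun D => D.K ^ (n + 1) * D.k) D -
      (D.a / D.ν) * conj (cc (fun D => D.K ^ (n + 1) * D.l) D)) := by
    refine (a2.sub m3).congr (Eventually.of_forall fun D => ?_)
    simp only [e1]
    ring
  constructor
  · refine ((A1.sub A2).cmul (1 / 2 : ℂ)).congr (Eventually.of_forall fun D => ?_)
    ring
  · refine ((A1.add A2).cmul (-1 / 2 : ℂ)).congr (Eventually.of_forall fun D => ?_)
    ring

/-- second pair of relations -/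
lemma pair2 (hKK : KKStatement) (hRX : RXStatement) (h0 : 0 < M) (n : ℕ) :
    T hM (fun D => aa (fun D => D.K ^ (n + 2) * D.k) D -
      (1 + D.ν⁻¹) / 2 * aa (fun D => D.K ^ (n + 2)) D) ∧
    T hM (fun D => aa (fun D => D.K ^ (n + 2) * D.k) D -
      bb (fun D => D.K ^ (n + 2) * D.k) D) := by
  have hjn : BA hM (fun D => D.j * D.K ^ n) := bd_j.mul (bd_K.pow n)
  have hJn : BA hM (fun D => D.J * D.K ^ n) := bd_J.mul (bd_K.pow n)
  have hKn1 : BA hM (fun D => D.K ^ (n + 1)) := bd_K.pow (n + 1)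
  -- x1 with g = j K^n
  have u1 : T hM (fun D => cc (fun D => D.K * ((D.j * D.K ^ n) * D.k)) D +
      aa (fun D => D.K ^ (n + 2) * D.k) D) := by
    refine (r2 (hKn1.mul bd_k)).congr (Eventually.of_forall fun D => ?_)
    have e1 : D.j * (D.K ^ (n + 1) * D.k) = D.K * ((D.j * D.K ^ n) * D.k) := by ring
    have e2 : D.K * (D.K ^ (n + 1) * D.k) = D.K ^ (n + 2) * D.k := by ring
    simp only [cc, aa, e1, e2]
  have u2 : ∀ D : CD, dd (fun D => (D.j * D.K ^ n) * D.K) D = aa (fun D => D.K ^ (n + 2)) D := by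
    intro D
    have := e_j (fun D => D.K ^ (n + 1)) D
    have e1 : D.j * D.K ^ (n + 1) = (D.j * D.K ^ n) * D.K := by ring
    have e2 : D.K * D.K ^ (n + 1) = D.K ^ (n + 2) := by ring
    simp only [dd, aa, e1, e2] at this ⊢
    exact this
  have u3 : T hM (fun D => inner ℂ (D.Φ D.l D.v) (D.Φ ((D.j * D.K ^ n) * D.K) D.u) -
      conj (aa (fun D => D.K ^ (n + 2) * D.l) D)) := by
    refine (s_v' hKK h0 (n + 2) (bd_l.bv bd_v)).congr (Eventually.of_forall fun D => ?_)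
    have e : D.Φ ((D.j * D.K ^ n) * D.K) D.u = D.Φ (D.K ^ (n + 2)) D.v := by
      rw [CD.u, ← phi_mul]
      have : D.j * D.K ^ n * D.K * D.q = D.K ^ (n + 2) := by
        rw [CD.K]; ring
      rw [this]
    simp only [aa, phi_mul D (D.K ^ (n + 2)), e]
  -- x2 with g = J K^n
  have v1 : T hM (fun D => dd (fun D => D.K * ((D.J * D.K ^ n) * D.k)) D +
      bb (fun D => D.K ^ (n + 2) * D.k) D) := by
    refine (r1 (bd_J.mul (hKn1.mul bd_k))).congr (Eventually.of_forall fun D => ?_)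
    have h := e_J (fun D => D.K ^ (n + 1) * D.k) D
    have e1 : D.J * (D.K ^ (n + 1) * D.k) = D.K * ((D.J * D.K ^ n) * D.k) := by ring
    have e2 : D.K * (D.K ^ (n + 1) * D.k) = D.K ^ (n + 2) * D.k := by ring
    simp only [cc, dd, bb, e1, e2] at h ⊢
    rw [h]
  have v2 : ∀ D : CD, cc (fun D => (D.J * D.K ^ n) * D.K) D = bb (fun D => D.K ^ (n + 2)) D := by
    intro D
    have := e_J (fun D => D.K ^ (n + 1)) D
    have e1 : D.J * D.K ^ (n + 1) = (D.J * D.K ^ n) * D.K := by ring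
    have e2 : D.K * D.K ^ (n + 1) = D.K ^ (n + 2) := by ring
    simp only [cc, bb, e1, e2] at this ⊢
    exact this
  have v3 : T hM (fun D => inner ℂ (D.Φ D.l D.u) (D.Φ ((D.J * D.K ^ n) * D.K) D.v) -
      conj (bb (fun D => D.K ^ (n + 2) * D.l) D)) := by
    refine (s_u' hKK h0 (n + 2) (bd_l.bv bd_u)).congr (Eventually.of_forall fun D => ?_)
    have e : D.Φ ((D.J * D.K ^ n) * D.K) D.v = D.Φ (D.K ^ (n + 2)) D.u := by
      rw [CD.u, ← phi_mul]
      have : D.K ^ (n + 2) * D.q = D.J * D.K ^ n * D.K := by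
        rw [CD.K, CD.J]; ring
      rw [this]
    simp only [bb, phi_mul D (D.K ^ (n + 2)), e]
  have X1 : T hM (fun D => - aa (fun D => D.K ^ (n + 2) * D.k) D + aa (fun D => D.K ^ (n + 2)) D -
      (D.a / D.ν) * conj (aa (fun D => D.K ^ (n + 2) * D.l) D)) := by
    refine (((x1 hKK hRX h0 hjn).sub u1).add (u3.bmul bd_aν)).congr
      (Eventually.of_forall fun D => ?_)
    rw [u2 D]
    ring
  have X2 : T hM (fun D => - bb (fun D => D.K ^ (n + 2) * D.k) D +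
      D.ν⁻¹ * bb (fun D => D.K ^ (n + 2)) D +
      (D.a / D.ν) * conj (bb (fun D => D.K ^ (n + 2) * D.l) D)) := by
    refine (((x2 hKK hRX h0 hJn).sub v1).sub (v3.bmul bd_aν)).congr
      (Eventually.of_forall fun D => ?_)
    rw [v2 D]
    ring
  -- a ~ b
  obtain ⟨p1, p2⟩ := pair1 (hM := hM) hKK hRX h0 n
  have w1 : T hM (fun D => aa (fun D => D.K ^ (n + 2) * D.k) D -
      bb (fun D => D.K ^ (n + 2) * D.k) D) := by
    refine ((r4 (hKn1.mul bd_k)).sub p1).congr (Eventually.of_forall fun D => ?_)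
    have e2 : ∀ D : CD, D.K * (D.K ^ (n + 1) * D.k) = D.K ^ (n + 2) * D.k := fun D => by ring
    simp only [e2]
    ring
  have w2 : T hM (fun D => aa (fun D => D.K ^ (n + 2)) D - bb (fun D => D.K ^ (n + 2)) D) :=
    ab_pow hKK h0 (n + 1)
  have w3 : T hM (fun D => (D.a / D.ν) * conj (aa (fun D => D.K ^ (n + 2) * D.l) D) -
      (D.a / D.ν) * conj (bb (fun D => D.K ^ (n + 2) * D.l) D)) := by
    refine (((r4 (hKn1.mul bd_l)).conj.bmul bd_aν).sub p2).congr (Eventually.of_forall fun D => ?_)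
    have e2 : ∀ D : CD, D.K * (D.K ^ (n + 1) * D.l) = D.K ^ (n + 2) * D.l := fun D => by ring
    simp only [e2, map_sub]
    ring
  refine ⟨?_, w1⟩
  refine (((((X1.add X2).sub w1).add (w2.bmul bd_ν')).add w3).cmul (-1 / 2 : ℂ)).congr
    (Eventually.of_forall fun D => ?_)
  ring

end rx

section last

variable {M : ℝ} {hM : 0 ≤ M}

/-- the functional of the last step -/
noncomputable def FF (w : ∀ D : CD, D.H) (Z : ∀ D : CD, D.A) (D : CD) : ℂ :=
  inner ℂ (w D) (D.Φ (Z D * D.k) (w D)) - (1 + D.ν⁻¹) / 2 * inner ℂ (w D) (D.Φ (Z D) (w D))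

lemma FF_sub (w : ∀ D : CD, D.H) (Z Z' : ∀ D : CD, D.A) (D : CD) :
    FF w (fun D => Z D - Z' D) D = FF w Z D - FF w Z' D := by
  simp only [FF, sub_mul, map_sub, sub_apply, inner_sub_right]
  ring

/-- from exponents `≥ 2` to `K (1 - K)^N` -/
lemma FF_step {w : ∀ D : CD, D.H} (h : ∀ n : ℕ, T hM (FF w (fun D => D.K ^ (n + 2)))) (N : ℕ) :
    ∀ m : ℕ, T hM (fun D => FF w (fun D => D.K ^ (m + 1) * (1 - D.K) ^ N) D -
      FF w (fun D => D.K ^ (m + 1)) D) := by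
  induction N with
  | zero =>
    intro m
    have : T hM (fun _ => (0 : ℂ)) := tendsto_const_nhds
    refine this.congr (Eventually.of_forall fun D => ?_)
    simp only [pow_zero, mul_one, sub_self]
  | succ N ih =>
    intro m
    have h1 := ih m
    have h2 := (ih (m + 1)).add (h m)
    refine (h1.sub h2).congr (Eventually.of_forall fun D => ?_)
    have e : (fun D : CD => D.K ^ (m + 1) * (1 - D.K) ^ (N + 1)) =
        fun D : CD => (fun D : CD => D.K ^ (m + 1) * (1 - D.K) ^ N) D -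
          (fun D : CD => D.K ^ (m + 1 + 1) * (1 - D.K) ^ N) D := by
      funext D
      ring
    rw [e, FF_sub]
    ring

/-- exponent `1` -/
lemma FF_one (h0 : 0 < M) {w : ∀ D : CD, D.H} (hw : BV hM w)
    (h : ∀ n : ℕ, T hM (FF w (fun D => D.K ^ (n + 2)))) : T hM (FF w (fun D => D.K ^ (0 + 1))) := by
  obtain ⟨C, hC⟩ := hw
  obtain ⟨C', hC'⟩ := bd_k (hM := hM)
  obtain ⟨C'', hC''⟩ := bd_ν' (hM := hM)
  set Q : ℝ := (|C'| + (1 + |C''|)) * (M * |C| ^ 2) with hQ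
  have hQ0 : 0 ≤ Q := by positivity
  unfold T
  rw [Metric.tendsto_nhds]
  intro ε hε
  obtain ⟨N, hN⟩ := exists_nat_gt (Q / (ε / 2))
  have hN1 : Q / (N + 1) < ε / 2 := by
    rw [div_lt_iff₀ (by positivity)] at hN ⊢
    nlinarith
  have h1 := (Metric.tendsto_nhds.1 (FF_step h N 0)) (ε / 2) (by positivity)
  filter_upwards [h1, hC, hC', hC'', ev_P hM one_pos] with D g1 g2 g3 g4 g5
  rw [dist_zero_right] at g1 ⊢
  have k1 : ‖FF w (fun D => D.K ^ (0 + 1) * (1 - D.K) ^ N) D‖ ≤ Q / (N + 1) := by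
    have b1 : ‖D.Φ (D.K * (1 - D.K) ^ N)‖ ≤ M / (N + 1) := g5.2.2 N
    have b2 : ‖D.Φ (D.K * (1 - D.K) ^ N) (w D)‖ ≤ M / (N + 1) * |C| :=
      (ContinuousLinearMap.le_opNorm _ _).trans (mul_le_mul b1 (g2.trans (le_abs_self _))
        (norm_nonneg _) (by positivity))
    have b3 : ‖D.Φ (D.K * (1 - D.K) ^ N * D.k) (w D)‖ ≤ |C'| * (M / (N + 1) * |C|) := by
      rw [mul_comm _ D.k, phi_mul]
      exact (ContinuousLinearMap.le_opNorm _ _).trans (mul_le_mul (g3.trans (le_abs_self _)) b2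
        (norm_nonneg _) (abs_nonneg _))
    have b4 : ‖(1 + D.ν⁻¹) / 2‖ ≤ 1 + |C''| := by
      rw [norm_div]
      have : ‖(1 : ℂ) + D.ν⁻¹‖ ≤ 1 + |C''| := by
        refine (norm_add_le _ _).trans ?_
        rw [norm_one]
        have := g4.trans (le_abs_self _)
        linarith
      have h2 : ‖(2 : ℂ)‖ = 2 := by simp
      rw [h2]
      have := norm_nonneg ((1 : ℂ) + D.ν⁻¹)
      linarith
    simp only [FF, zero_add, pow_one]
    refine (norm_sub_le _ _).trans ?_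
    rw [norm_mul]
    have c1 : ‖inner ℂ (w D) (D.Φ (D.K * (1 - D.K) ^ N * D.k) (w D))‖ ≤
        |C| * (|C'| * (M / (N + 1) * |C|)) :=
      (norm_inner_le_norm _ _).trans (mul_le_mul (g2.trans (le_abs_self _)) b3
        (norm_nonneg _) (abs_nonneg _))
    have c2 : ‖inner ℂ (w D) (D.Φ (D.K * (1 - D.K) ^ N) (w D))‖ ≤
        |C| * (M / (N + 1) * |C|) :=
      (norm_inner_le_norm _ _).trans (mul_le_mul (g2.trans (le_abs_self _)) b2
        (norm_nonneg _) (abs_nonneg _))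
    have c3 : ‖(1 + D.ν⁻¹) / 2‖ * ‖inner ℂ (w D) (D.Φ (D.K * (1 - D.K) ^ N) (w D))‖ ≤
        (1 + |C''|) * (|C| * (M / (N + 1) * |C|)) :=
      mul_le_mul b4 c2 (norm_nonneg _) (by positivity)
    refine (add_le_add c1 c3).trans (le_of_eq ?_)
    rw [hQ]
    ring
  have k2 : ‖FF w (fun D => D.K ^ (0 + 1)) D‖ ≤
      ‖FF w (fun D => D.K ^ (0 + 1) * (1 - D.K) ^ N) D‖ +
      ‖FF w (fun D => D.K ^ (0 + 1) * (1 - D.K) ^ N) D - FF w (fun D => D.K ^ (0 + 1)) D‖ := by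
    have := norm_sub_le (FF w (fun D => D.K ^ (0 + 1) * (1 - D.K) ^ N) D)
      (FF w (fun D => D.K ^ (0 + 1) * (1 - D.K) ^ N) D - FF w (fun D => D.K ^ (0 + 1)) D)
    rwa [sub_sub_cancel] at this
  linarith

lemma FF_all (h0 : 0 < M) {w : ∀ D : CD, D.H} (hw : BV hM w)
    (h : ∀ n : ℕ, T hM (FF w (fun D => D.K ^ (n + 2)))) (n : ℕ) :
    T hM (FF w (fun D => D.K ^ (n + 1))) := by
  cases n with
  | zero => exact FF_one h0 hw h
  | succ n => exact h n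

end last

theorem ce_st (hKK : KKStatement) (hRX : RXStatement) : CEStatement := by
  intro M ε n h0 hε
  have hM : 0 ≤ M := h0.le
  have t1 := c_pow (hM := hM) hKK h0 (n + 1)
  have t2 := (pair1 (hM := hM) hKK hRX h0 n).1
  have f3 : ∀ m : ℕ, T hM (FF (fun D => D.v) (fun D => D.K ^ (m + 2))) := fun m =>
    (pair2 (hM := hM) hKK hRX h0 m).1
  have f4 : ∀ m : ℕ, T hM (FF (fun D => D.u) (fun D => D.K ^ (m + 2))) := by
    intro m
    obtain ⟨p1, p2⟩ := pair2 (hM := hM) hKK hRX h0 m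
    have p3 := ab_pow (hM := hM) hKK h0 (m + 1)
    have hb : ∃ C : ℝ, ∀ᶠ D in fl M hM, ‖(1 + D.ν⁻¹) / 2‖ ≤ C := by
      refine ⟨(1 + M) / 2, (ev_P hM one_pos).mono fun D hD => ?_⟩
      rw [norm_div]
      have : ‖(1 : ℂ) + D.ν⁻¹‖ ≤ 1 + M := by
        refine (norm_add_le _ _).trans ?_
        rw [norm_one]
        have := hD.2.1.hν'
        linarith
      have h2 : ‖(2 : ℂ)‖ = 2 := by simp
      rw [h2]
      linarith
    refine ((p1.sub p2).add (p3.bmul hb)).congr (Eventually.of_forall fun D => ?_)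
    simp only [FF, aa, bb]
    ring
  have t3 := FF_all h0 bd_v f3 n
  have t4 := FF_all h0 bd_u f4 n
  have t5 := ab_pow (hM := hM) hKK h0 n
  obtain ⟨δ1, d1, g1⟩ := t1.out hε
  obtain ⟨δ2, d2, g2⟩ := t2.out hε
  obtain ⟨δ3, d3, g3⟩ := t3.out hε
  obtain ⟨δ4, d4, g4⟩ := t4.out hε
  obtain ⟨δ5, d5, g5⟩ := t5.out hε
  refine ⟨min δ1 (min δ2 (min δ3 (min δ4 δ5))), by positivity, ?_⟩
  intro H _ _ _ 𝓐 _ _ Φ q qi j B L Δ a ν b v hN hK hNN
  set D : CD := ⟨H, 𝓐, Φ, q, qi, j, B, L, Δ, a, ν, b, v⟩ with hD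
  have hP : D.P M (min δ1 (min δ2 (min δ3 (min δ4 δ5)))) := ⟨hN, hK, hNN⟩
  have hP1 := g1 D (hP.mono hM (min_le_left _ _))
  have hP' := hP.mono hM (min_le_right _ _)
  have hP2 := g2 D (hP'.mono hM (min_le_left _ _))
  have hP'' := hP'.mono hM (min_le_right _ _)
  have hP3 := g3 D (hP''.mono hM (min_le_left _ _))
  have hP3' := hP''.mono hM (min_le_right _ _)
  have hP4 := g4 D (hP3'.mono hM (min_le_left _ _))
  have hP5 := g5 D (hP3'.mono hM (min_le_right _ _))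
  exact ⟨hP1, hP2, hP3, hP4, hP5⟩

end C3N.H38
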