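import Pool.Agent.Lib.MP_c3d375_an.Neg.Iface

/-!
# MP_c3d375 (S06050): module RX (Paper 4.3), the contact relations
-/

open Complex Metric Set Filter Topology ComplexConjugate

namespace C3N.H38Rx

section one

variable {H : Type} [NormedAddCommGroup H] [InnerProductSpace ℂ H] [CompleteSpace H]

/-- a contact vector is nearly fixed -/
lemma contact (X : H →L[ℂ] H) (n p : H) (b : ℂ) (δ s : ℝ) (hb : ‖b‖ = 1)
    (hpos : 0 ≤ (inner ℂ n (X n)).re + δ * ‖n‖ ^ 2)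
    (hX : X n = p + (b - 1) • n) (hk : (inner ℂ n p).re ≤ s) :
    (inner ℂ n (X n)).re + δ * ‖n‖ ^ 2 ≤ s + δ * ‖n‖ ^ 2 ∧
    ‖b - 1‖ ^ 2 * ‖n‖ ^ 2 ≤ 2 * (s + δ * ‖n‖ ^ 2) := by
  have e1 : (inner ℂ n (X n)).re = (inner ℂ n p).re + (b.re - 1) * ‖n‖ ^ 2 := by
    rw [hX, inner_add_right, inner_smul_right, inner_self_eq_norm_sq_to_K]
    simp only [add_re, mul_re, sub_re, one_re, sub_im, one_im, sub_zero, ← ofReal_pow,
      Complex.coe_algebraMap, ofReal_re, ofReal_im, mul_zero]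
  have e2 : ‖b - 1‖ ^ 2 = 2 * (1 - b.re) := by
    have h1 : b.re ^ 2 + b.im ^ 2 = 1 := by
      have := Complex.sq_norm b
      rw [hb, Complex.normSq_apply] at this
      nlinarith
    rw [Complex.sq_norm, Complex.normSq_apply]
    simp only [sub_re, one_re, sub_im, one_im, sub_zero]
    nlinarith
  have e3 : b.re ≤ 1 := by
    have := Complex.abs_re_le_norm b
    rw [hb] at this
    exact (abs_le.1 this).2
  have e4 : 0 ≤ (1 - b.re) * ‖n‖ ^ 2 := mul_nonneg (by linarith) (sq_nonneg _)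
  constructor
  · rw [e1]; nlinarith
  · rw [e2]; rw [e1] at hpos; nlinarith

/-- the constant of the estimate -/
noncomputable def Cx (M G N : ℝ) : ℝ :=
  M * √(G ^ 2 * N * (M + 3 * N)) * √(1 + N ^ 2) + G * N ^ 2 + √(2 * (1 + N ^ 2)) * (G * N)

lemma Cx_nonneg {M G N : ℝ} (hM : 0 ≤ M) (hG : 0 ≤ G) (hN : 0 ≤ N) : 0 ≤ Cx M G N := by
  unfold Cx; positivity

/-- the Cauchy-Schwarz inequality at a contact vector -/
lemma rx_core (N1 X L' g : H →L[ℂ] H) (n p : H) (b : ℂ) (M G N δ : ℝ) (hM : 0 ≤ M) (hG : 0 ≤ G)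
    (hN : 0 ≤ N) (hδ : 0 ≤ δ) (hδ1 : δ ≤ 1) (hb : ‖b‖ = 1)
    (hpos : ∀ m : H, 0 ≤ (inner ℂ m (X m)).re + δ * ‖m‖ ^ 2)
    (hX : X n = p + (b - 1) • n) (hk : (inner ℂ n p).re ≤ δ) (hn : ‖n‖ ≤ N) (hp : ‖p‖ ≤ M)
    (hg : ‖g‖ ≤ G) (hc : X (g n) = g (X n))
    (hker : ‖inner ℂ n (N1 (g n)) + inner ℂ (X n + L' n) (g n)‖ ≤
      M * √((inner ℂ (g n) (X (g n))).re + δ * ‖g n‖ ^ 2) *
        √((inner ℂ n (X n)).re + δ * ‖n‖ ^ 2) + δ * ‖n‖ * ‖g n‖) :
    ‖inner ℂ n (N1 (g n)) + inner ℂ p (g n) + inner ℂ (L' n) (g n)‖ ≤ Cx M G N * √δ := by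
  obtain ⟨c1, c2⟩ := contact X n p b δ δ hb (hpos n) hX hk
  have hs : √δ * √δ = δ := Real.mul_self_sqrt hδ
  have hs0 : 0 ≤ √δ := Real.sqrt_nonneg _
  have hs1 : √δ ≤ 1 := by rw [Real.sqrt_le_one]; exact hδ1
  have hds : δ ≤ √δ := by nlinarith
  have hgn : ‖g n‖ ≤ G * N := (g.le_opNorm n).trans (by gcongr)
  have hn2 : ‖n‖ ^ 2 ≤ N ^ 2 := by gcongr
  -- second factor
  have f2 : √((inner ℂ n (X n)).re + δ * ‖n‖ ^ 2) ≤ √(1 + N ^ 2) * √δ := by
    rw [← Real.sqrt_mul (by positivity)]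
    apply Real.sqrt_le_sqrt
    refine c1.trans ?_
    nlinarith
  have hb1 : ‖b - 1‖ ≤ 2 := by
    have := norm_sub_le b 1
    rw [hb, norm_one] at this
    linarith
  have hXn : ‖X n‖ ≤ M + 2 * N := by
    rw [hX]
    refine (norm_add_le _ _).trans ?_
    rw [norm_smul]
    have : ‖b - 1‖ * ‖n‖ ≤ 2 * N := by gcongr
    linarith
  have f1 : √((inner ℂ (g n) (X (g n))).re + δ * ‖g n‖ ^ 2) ≤ √(G ^ 2 * N * (M + 3 * N)) := by
    apply Real.sqrt_le_sqrt
    have h1 : (inner ℂ (g n) (X (g n))).re ≤ (G * N) * (G * (M + 2 * N)) := by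
      refine (Complex.re_le_norm _).trans ((norm_inner_le_norm _ _).trans ?_)
      rw [hc]
      have : ‖g (X n)‖ ≤ G * (M + 2 * N) := (g.le_opNorm _).trans (by gcongr)
      gcongr
    have h2 : δ * ‖g n‖ ^ 2 ≤ 1 * (G * N) ^ 2 := by gcongr
    nlinarith
  have f3 : ‖b - 1‖ * ‖n‖ ≤ √(2 * (1 + N ^ 2)) * √δ := by
    rw [← Real.sqrt_mul (by positivity)]
    apply Real.le_sqrt_of_sq_le
    rw [mul_pow]
    refine c2.trans ?_
    nlinarith
  have e1 : inner ℂ n (N1 (g n)) + inner ℂ p (g n) + inner ℂ (L' n) (g n) =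
      (inner ℂ n (N1 (g n)) + inner ℂ (X n + L' n) (g n)) - inner ℂ ((b - 1) • n) (g n) := by
    rw [hX, inner_add_left, inner_add_left]; ring
  rw [e1]
  refine (norm_sub_le _ _).trans ?_
  have g1 : ‖inner ℂ n (N1 (g n)) + inner ℂ (X n + L' n) (g n)‖ ≤
      M * √(G ^ 2 * N * (M + 3 * N)) * (√(1 + N ^ 2) * √δ) + √δ * N * (G * N) := by
    refine hker.trans ?_
    gcongr
  have g2 : ‖inner ℂ ((b - 1) • n) (g n)‖ ≤ √(2 * (1 + N ^ 2)) * √δ * (G * N) := by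
    refine (norm_inner_le_norm _ _).trans ?_
    rw [norm_smul]
    gcongr
  unfold Cx
  nlinarith

end one

section two

variable {H : Type} [NormedAddCommGroup H] [InnerProductSpace ℂ H] [CompleteSpace H]
  {𝓐 : Type} [CommRing 𝓐] [Algebra ℂ 𝓐]

lemma phi_mul (Φ : 𝓐 →ₐ[ℂ] (H →L[ℂ] H)) (x y : 𝓐) (v : H) : Φ (x * y) v = Φ x (Φ y v) := by
  rw [map_mul]; rfl

lemma phi_comm (Φ : 𝓐 →ₐ[ℂ] (H →L[ℂ] H)) (x y : 𝓐) (v : H) : Φ x (Φ y v) = Φ y (Φ x v) := by
  rw [← phi_mul, mul_comm, phi_mul]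

lemma phi_congr (Φ : 𝓐 →ₐ[ℂ] (H →L[ℂ] H)) {x y : 𝓐} (h : x = y) (v : H) : Φ x v = Φ y v := by
  rw [h]

end two

theorem rx_st : RXStatement := by
  intro M G ε hM hG hε
  set C : ℝ := (1 + M) * Cx M G (M * M) with hC
  have hC0 : 0 ≤ C := by
    have := Cx_nonneg hM.le hG.le (mul_nonneg hM.le hM.le)
    positivity
  refine ⟨min 1 ((ε / (C + 1)) ^ 2), by positivity, ?_⟩
  intro H _ _ _ 𝓐 _ _ Φ q qi j B L Δ a ν b v hN hK g hg
  set δ : ℝ := min 1 ((ε / (C + 1)) ^ 2) with hδ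
  have hδ0 : 0 < δ := by rw [hδ]; positivity
  have hδ1 : δ ≤ 1 := min_le_left _ _
  have hsq : C * √δ ≤ ε := by
    have h1 : √δ ≤ ε / (C + 1) := by
      rw [hδ]
      refine (Real.sqrt_le_sqrt (min_le_right _ _)).trans ?_
      rw [Real.sqrt_sq (by positivity)]
    have h2 : C * √δ ≤ C * (ε / (C + 1)) := by gcongr
    refine h2.trans ?_
    rw [mul_div_assoc', div_le_iff₀ (by positivity)]
    nlinarith
  have hCx : Cx M G (M * M) * √δ ≤ ε := by
    refine le_trans ?_ hsq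
    have := Cx_nonneg hM.le hG.le (mul_nonneg hM.le hM.le)
    rw [hC]
    have : Cx M G (M * M) ≤ (1 + M) * Cx M G (M * M) := by nlinarith
    gcongr
  have hCx' : M * (Cx M G (M * M) * √δ) ≤ ε := by
    refine le_trans ?_ hsq
    have := Cx_nonneg hM.le hG.le (mul_nonneg hM.le hM.le)
    rw [hC]
    have h3 : M * Cx M G (M * M) ≤ (1 + M) * Cx M G (M * M) := by nlinarith
    have : M * (Cx M G (M * M) * √δ) = (M * Cx M G (M * M)) * √δ := by ring
    rw [this]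
    gcongr
  have hjq := hN.hj
  have hqq := hK.hqi
  constructor
  · -- x-contact
    have hn : ‖Φ (q * j) (Φ q v)‖ ≤ M * M :=
      ((Φ (q * j)).le_opNorm _).trans (mul_le_mul hN.nK hN.nu (norm_nonneg _) hM.le)
    have hX : Φ (qi ^ 2 + b • 1) (Φ (q * j) (Φ q v)) = v + (b - 1) • Φ (q * j) (Φ q v) := by
      have : (qi ^ 2 + b • 1) * ((q * j) * q) = 1 + (b - 1) • ((q * j) * q) := by
        simp only [Algebra.smul_def, map_sub, map_one]
        linear_combination ((qi * q + 1) * j) * hqq + hjq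
      have := congrArg (fun z => Φ z v) this
      simpa only [map_mul, map_add, map_smul, map_one, mul_apply_eq_comp,
        add_apply, smul_apply,
        one_apply_eq_self] using this
    have hJ : Φ (q * j) (Φ q v) = Φ (q ^ 2 * j) v := by
      rw [← mul_apply_eq_comp, ← map_mul]
      congr 2
      ring
    have hk : (inner ℂ (Φ (q * j) (Φ q v)) v).re ≤ δ := by
      have h1 := hN.k1
      rw [hJ]
      have : (inner ℂ (Φ (q ^ 2 * j) v) v).re = (inner ℂ v (Φ (q ^ 2 * j) v)).re := by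
        rw [← inner_conj_symm, conj_re]
      rw [this]
      exact (abs_le.1 h1).2
    have key := rx_core (Φ (B * (qi ^ 2 + ν⁻¹ • 1))) (Φ (qi ^ 2 + b • 1))
      (-(((a : ℂ) * (conj ν)⁻¹) • Φ (qi ^ 2 * L))) (Φ g) (Φ (q * j) (Φ q v)) v b M G (M * M) δ
      hM.le hG.le (by positivity) hδ0.le hδ1 hK.hb hK.posx hX hk hn hN.nv hg
      (phi_comm Φ _ _ _)
      (by
        have := hK.kx (Φ (q * j) (Φ q v)) (Φ g (Φ (q * j) (Φ q v)))
        have e : Φ (qi ^ 2 + b • 1 - ((a : ℂ) * (conj ν)⁻¹) • (qi ^ 2 * L)) (Φ (q * j) (Φ q v)) =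
          Φ (qi ^ 2 + b • 1) (Φ (q * j) (Φ q v)) +
            (-(((a : ℂ) * (conj ν)⁻¹) • Φ (qi ^ 2 * L))) (Φ (q * j) (Φ q v)) := by
          rw [map_sub, map_smul, sub_eq_add_neg]; rfl
        rw [e] at this
        exact this)
    refine le_trans (le_of_eq ?_) (key.trans hCx)
    congr 1
    have e1 : Φ (B * (qi ^ 2 + ν⁻¹ • 1)) (Φ g (Φ (q * j) (Φ q v))) =
        Φ (g * (B * (1 + ν⁻¹ • q ^ 2) * j)) v := by
      rw [← mul_apply_eq_comp, ← mul_apply_eq_comp,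
        ← mul_apply_eq_comp, ← map_mul, ← map_mul, ← map_mul]
      congr 2
      simp only [Algebra.smul_def]
      linear_combination (B * g * j * (q * qi + 1)) * hqq
    have e2 : Φ g (Φ (q * j) (Φ q v)) = Φ (g * (q * j)) (Φ q v) := by
      rw [map_mul Φ g, mul_apply_eq_comp]
    have e3 : (-(((a : ℂ) * (conj ν)⁻¹) • Φ (qi ^ 2 * L))) (Φ (q * j) (Φ q v)) =
        -(((a : ℂ) * (conj ν)⁻¹) • Φ (j * L) v) := by
      rw [neg_apply, smul_apply]
      congr 2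
      rw [← mul_apply_eq_comp, ← mul_apply_eq_comp, ← map_mul, ← map_mul]
      congr 2
      linear_combination (j * L * (q * qi + 1)) * hqq
    rw [e1, e2, e3, inner_neg_left, inner_smul_left]
    simp only [map_mul, conj_ofReal, map_inv₀, conj_conj]
    ring
  · -- u-contact
    have hn : ‖Φ (q * j) v‖ ≤ M * M :=
      ((Φ (q * j)).le_opNorm _).trans (mul_le_mul hN.nK hN.nv (norm_nonneg _) hM.le)
    have hX : Φ (q ^ 2 + (conj b) • 1) (Φ (q * j) v) = Φ q v + (conj b - 1) • Φ (q * j) v := by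
      have : (q ^ 2 + (conj b) • 1) * (q * j) = q + (conj b - 1) • (q * j) := by
        simp only [Algebra.smul_def, map_sub, map_one]
        linear_combination q * hjq
      have := congrArg (fun z => Φ z v) this
      simpa only [map_mul, map_add, map_smul, map_one, mul_apply_eq_comp,
        add_apply, smul_apply,
        one_apply_eq_self] using this
    have hJ : Φ (q * j) v = Φ j (Φ q v) := by
      rw [← mul_apply_eq_comp, ← map_mul]
      congr 2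
      ring
    have hk : (inner ℂ (Φ (q * j) v) (Φ q v)).re ≤ δ := by
      have h1 := hN.k2
      rw [hJ]
      have : (inner ℂ (Φ j (Φ q v)) (Φ q v)).re = (inner ℂ (Φ q v) (Φ j (Φ q v))).re := by
        rw [← inner_conj_symm, conj_re]
      rw [this]
      exact (abs_le.1 h1).2
    have hb' : ‖(conj b : ℂ)‖ = 1 := by rw [Complex.norm_conj]; exact hK.hb
    have key := rx_core (Φ (B * (q ^ 2 + ν • 1))) (Φ (q ^ 2 + (conj b) • 1))
      ((a : ℂ) • Φ L) (Φ g) (Φ (q * j) v) (Φ q v) (conj b) M G (M * M) δ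
      hM.le hG.le (by positivity) hδ0.le hδ1 hb' hK.posu hX hk hn hN.nu hg
      (phi_comm Φ _ _ _)
      (by
        have := hK.ku (Φ (q * j) v) (Φ g (Φ (q * j) v))
        have e : Φ (q ^ 2 + (conj b) • 1 + (a : ℂ) • L) (Φ (q * j) v) =
          Φ (q ^ 2 + (conj b) • 1) (Φ (q * j) v) + ((a : ℂ) • Φ L) (Φ (q * j) v) := by
          rw [map_add Φ _ ((a : ℂ) • L), map_smul]; rfl
        rw [e] at this
        exact this)
    have e1 : Φ (B * (q ^ 2 + ν • 1)) (Φ g (Φ (q * j) v)) =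
        ν • Φ (g * (B * (1 + ν⁻¹ • q ^ 2) * j)) (Φ q v) := by
      have : B * (q ^ 2 + ν • 1) * (g * (q * j)) = ν • ((g * (B * (1 + ν⁻¹ • q ^ 2) * j)) * q) := by
        simp only [Algebra.smul_def]
        have hνν : algebraMap ℂ 𝓐 ν * algebraMap ℂ 𝓐 ν⁻¹ = 1 := by
          rw [← map_mul, mul_inv_cancel₀ hK.hν0, map_one]
        linear_combination (-(g * B * j * q * q ^ 2)) * hνν
      have := congrArg (fun z => Φ z v) this
      simpa only [map_mul, map_smul, mul_apply_eq_comp,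
        smul_apply] using this
    have e2 : Φ g (Φ (q * j) v) = Φ (g * (q * j)) v := by
      rw [map_mul Φ g, mul_apply_eq_comp]
    have e3 : ((a : ℂ) • Φ L) (Φ (q * j) v) = (a : ℂ) • Φ (j * L) (Φ q v) := by
      rw [smul_apply]
      congr 1
      rw [← mul_apply_eq_comp, ← mul_apply_eq_comp, ← map_mul, ← map_mul]
      congr 2
      ring
    rw [e1, e2, e3, inner_smul_left, inner_smul_right, conj_ofReal] at key
    have hνν := hK.hν0
    have e4 : inner ℂ (Φ (q * j) v) (Φ (g * (B * (1 + ν⁻¹ • q ^ 2) * j)) (Φ q v)) +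
        ν⁻¹ * inner ℂ (Φ q v) (Φ (g * (q * j)) v) +
        (a / ν) * inner ℂ (Φ (j * L) (Φ q v)) (Φ (g * (q * j)) v) =
        ν⁻¹ * (ν * inner ℂ (Φ (q * j) v) (Φ (g * (B * (1 + ν⁻¹ • q ^ 2) * j)) (Φ q v)) +
          inner ℂ (Φ q v) (Φ (g * (q * j)) v) +
          a * inner ℂ (Φ (j * L) (Φ q v)) (Φ (g * (q * j)) v)) := by
      field_simp
    rw [e4, norm_mul]
    refine le_trans ?_ hCx'
    exact mul_le_mul hK.hν' key (norm_nonneg _) hM.le

end C3N.H38Rx
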